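import Pool.Agent.Helper18.EW.Goals

/-!
# Project EW, packet E6: before the zone
-/

set_option autoImplicit false

namespace Pool.Agent.Helper55.EW

open Finset
open Pool.Agent.Helper18.EW
open Pool.Agent.Helper43.Hw (T na va lz Play aa ac sc oo sk U Dd Sd Pn nx bb np GoalH4)
open Pool.Agent.Helper43.Gm (Pri st mv nn Run)

theorem kmono {μ R N : ℕ} {κ x : ℕ → ℕ} (hP : Play μ R N κ x) {a b : ℕ} (hab : a ≤ b)
    (hb : b < R) : κ a ≤ κ b := by
  induction b, hab using Nat.le_induction with
  | base => exact le_rfl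
  | succ m hm ih => exact (ih (by omega)).trans (hP.mono m hb)

theorem va_self {μ R : ℕ} (κ x : ℕ → ℕ) (y : ℕ) : va μ R κ x (κ y) y = x y := by
  unfold va nn
  simp

theorem va_gt {μ R : ℕ} {κ x : ℕ → ℕ} {c y : ℕ} (h : κ y < c) : va μ R κ x c y = na μ R y := by
  unfold va
  rw [if_pos h]

theorem va_le {μ R : ℕ} {κ x : ℕ → ℕ} {c y : ℕ} (h : c < κ y) : va μ R κ x c y ≤ μ := by
  unfold va nn
  rw [if_neg (by omega), if_neg (by omega), if_neg (by omega)]
  exact (Nat.sub_le _ _).trans (Nat.sub_le _ _)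

/-- the load of a row in which there are no natural values -/
theorem lz_le {μ R N : ℕ} {κ x : ℕ → ℕ} {y : ℕ} (hN : κ y < N) (hna : na μ R y = 0) :
    lz μ R N κ x y ≤ μ * oo μ R κ x y + x y := by
  unfold lz
  rw [Finset.range_eq_Ico, ← Finset.sum_Ico_consecutive _ (Nat.zero_le (κ y)) hN.le,
    Finset.sum_eq_sum_Ico_succ_bot hN, va_self]
  have h1 : ∑ c ∈ Ico (κ y + 1) N, va μ R κ x c y = 0 := by
    refine Finset.sum_eq_zero fun c hc => ?_
    rw [mem_Ico] at hc
    rw [va_gt (by omega), hna]
  have h2 : ∑ c ∈ Ico 0 (κ y), va μ R κ x c y ≤ μ * oo μ R κ x y := by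
    rw [← Finset.range_eq_Ico]
    have h3 : ∑ c ∈ (range (κ y)).filter (fun c => 0 < va μ R κ x c y), va μ R κ x c y =
        ∑ c ∈ range (κ y), va μ R κ x c y := by
      refine Finset.sum_filter_of_ne fun c _ hc => Nat.pos_of_ne_zero hc
    rw [← h3]
    have h4 := Finset.sum_le_card_nsmul ((range (κ y)).filter (fun c => 0 < va μ R κ x c y))
      (fun c => va μ R κ x c y) μ (fun c hc => by
        rw [mem_filter, mem_range] at hc
        exact va_le hc.1)
    rw [smul_eq_mul] at h4
    unfold oo
    rw [mul_comm]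
    exact h4
  omega

theorem goalE6 (h4 : GoalH4) (h6a : GoalE6a) : GoalE6 := by
  intro μ R N β ℓ κ x Y hμ hR hLen hP hE hYR'
  have hR2 : μ + 2 ≤ R := by omega
  have h4' := h4 μ R N κ x hμ hR2 hP
  obtain ⟨hYR, hYN, hYl⟩ := hE
  have hkN : ∀ y ≤ Y, κ y < N := fun y hy => lt_of_le_of_lt (kmono hP hy hYR) hYN
  have hβ := hLen.b1
  -- (a)
  have ha : ∀ y ≤ Y, μ * oo μ R κ x y ≤ 4 * ℓ y + μ := fun y hy =>
    h6a μ R N β ℓ κ x y hμ hR2 hLen hP (lt_of_le_of_lt hy hYR)
      (fun z hz => (hYl z (hz.trans hy)).le)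
  have hna : ∀ y ≤ Y, na μ R y = 0 := by
    intro y hy
    unfold na
    omega
  -- (b)
  have hb : ∀ y ≤ Y, ℓ y < μ * (oo μ R κ x y + 1) := by
    intro y hy
    have g2 := lz_le (μ := μ) (R := R) (N := N) (κ := κ) (x := x) (hkN y hy) (hna y hy)
    rw [hYl y hy] at g2
    have g3 := hP.lt y (by omega)
    rw [mul_add, mul_one]
    omega
  -- (c)
  have hc : ∀ y < Y, κ (y + 1) * μ + x (y + 1) + ℓ y =
      κ y * μ + x y + ℓ (y + 1) + oo μ R κ x y + sk μ κ x y := by
    intro y hy
    have g1 := hna y hy.le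
    have g2 := hna (y + 1) hy
    have g3 := (h4' y (by omega)).1 (hkN y hy.le) (hkN (y + 1) hy)
    rw [g1, g2, hYl y hy.le, hYl (y + 1) hy, mul_zero, mul_zero, Nat.sub_mul] at g3
    have g4 : κ y * μ ≤ κ (y + 1) * μ := Nat.mul_le_mul_right _ (hP.mono y (by omega))
    omega
  refine ⟨hb, hc, ?_, ?_⟩
  · -- (d)
    intro l z hRz hzY hl
    have hz1 : 1 ≤ z := by omega
    have hl1 : 1 ≤ l := by
      rcases Nat.eq_zero_or_pos l with h | h
      · rw [h, zero_mul] at hl
        have : 0 < μ ^ 2 := pow_pos (by omega) 2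
        omega
      · exact h
    have key : ∀ j ≤ l, 4 * (μ * (κ z * μ + x z)) + j * (β * R + 4) ≤
        4 * (μ * (κ (z + j) * μ + x (z + j))) := by
      intro j
      induction j with
      | zero => intro _; simp
      | succ j ih =>
        intro hj
        have g1 := ih (by omega)
        have g2 := hc (z + j) (by omega)
        have g3 := hb (z + j) (by omega)
        have g5 := hLen.st (z + j) (by omega) (by omega)
        have g6 := hLen.lo (z + j) (by omega) (by omega)
        have g7 : β * R ≤ β * (2 * (z + j)) := Nat.mul_le_mul_left _ (by omega)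
        have g8 : β * 2 ≤ β * R := Nat.mul_le_mul_left _ (by omega)
        have g9 : β * R ≤ 4 * ℓ (z + j) := by omega
        have g10 : κ (z + (j + 1)) * μ + x (z + (j + 1)) =
            κ (z + j) * μ + x (z + j) + β + oo μ R κ x (z + j) + sk μ κ x (z + j) := by
          rw [show z + (j + 1) = z + j + 1 by ring]
          omega
        rw [g10]
        have g4 : μ * (κ (z + j) * μ + x (z + j) + β + oo μ R κ x (z + j) + sk μ κ x (z + j)) =
            μ * (κ (z + j) * μ + x (z + j)) + μ * (oo μ R κ x (z + j) + β) +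
            μ * sk μ κ x (z + j) := by ring
        have g11 : μ * (oo μ R κ x (z + j) + 1) ≤ μ * (oo μ R κ x (z + j) + β) :=
          Nat.mul_le_mul_left _ (by omega)
        have g12 : (j + 1) * (β * R + 4) = j * (β * R + 4) + (β * R + 4) := by ring
        rw [g4, g12]
        omega
    have g1 := key l le_rfl
    have g2 := hP.lt (z + l) (by omega)
    by_contra hcon
    have g3 : κ (z + l) * μ ≤ κ z * μ := Nat.mul_le_mul_right _ (by omega)
    have g4 : μ * (κ (z + l) * μ + x (z + l)) ≤ μ * (κ z * μ + x z) + μ * μ := by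
      rw [← mul_add]
      exact Nat.mul_le_mul_left _ (by omega)
    have g5 : l * (β * R + 4) = l * (β * R) + l * 4 := mul_add _ _ _
    have g7 : 4 * μ ^ 2 = 4 * (μ * μ) := by ring
    omega
  · -- (e)
    intro l z z' hz1 hzz hzY hl
    obtain ⟨X, rfl⟩ := Nat.exists_eq_add_of_le hzz
    have e2 : μ * aa κ x (z + X) ≤ κ (z + X) * μ + x (z + X) + μ := by
      unfold aa
      split_ifs
      · rw [mul_add, mul_one, mul_comm]; omega
      · rw [add_zero, mul_comm]; omega
    have e3 : κ z * μ + x z ≤ μ * aa κ x z := by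
      have g1 := hP.lt z (by omega)
      unfold aa
      split_ifs with h
      · rw [mul_add, mul_one, mul_comm μ]; omega
      · rw [add_zero, mul_comm μ]; omega
    -- the growth
    have e4 : ∀ j ≤ X, κ (z + j) * μ + x (z + j) ≤ κ z * μ + x z + j * (2 * β) +
        ∑ i ∈ range j, oo μ R κ x (z + i) + ∑ i ∈ range j, sk μ κ x (z + i) := by
      intro j
      induction j with
      | zero => intro _; simp
      | succ j ih =>
        intro hj
        have g1 := ih (by omega)
        have g2 := hc (z + j) (by omega)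
        have g3 : ℓ (z + j + 1) ≤ ℓ (z + j) + 2 * β := by
          have := hLen.st (z + j) (by omega) (by omega)
          omega
        rw [show z + (j + 1) = z + j + 1 by ring, Finset.sum_range_succ,
          Finset.sum_range_succ, Nat.succ_mul]
        omega
    have e5 := e4 X le_rfl
    have e6 : μ * ∑ i ∈ range X, oo μ R κ x (z + i) ≤
        X * (4 * (β * R) + β * R / 12 + μ) := by
      rw [Finset.mul_sum]
      have := Finset.sum_le_card_nsmul (range X) (fun i => μ * oo μ R κ x (z + i))
        (4 * (β * R) + β * R / 12 + μ)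
        (fun i hi => by
          rw [mem_range] at hi
          have h1 := ha (z + i) (by omega)
          have h2 := hLen.hi (z + i) (by omega)
          omega)
      rw [card_range, smul_eq_mul] at this
      exact this
    have e7 : ∑ i ∈ range X, sk μ κ x (z + i) ≤ X + μ := by
      unfold sk
      have g1 : ∑ i ∈ range X, ((range (z + i)).filter (fun t => κ t < κ (z + i) ∧ 0 < x t ∧
          μ + t = x t + (z + i))).card = ((range X).biUnion fun i =>
          (range (z + i)).filter (fun t => κ t < κ (z + i) ∧ 0 < x t ∧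
            μ + t = x t + (z + i))).card := by
        refine (Finset.card_biUnion fun i _ j _ hij => ?_).symm
        show Disjoint _ _
        rw [Finset.disjoint_left]
        intro t ht ht'
        rw [mem_filter] at ht ht'
        omega
      rw [g1]
      have g2 : ((range X).biUnion fun i =>
          (range (z + i)).filter (fun t => κ t < κ (z + i) ∧ 0 < x t ∧
            μ + t = x t + (z + i))) ⊆ Ico (z - μ) (z + X) := by
        intro t ht
        rw [mem_biUnion] at ht
        obtain ⟨i, hi, ht⟩ := ht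
        rw [mem_filter, mem_range] at ht
        rw [mem_range] at hi
        rw [mem_Ico]
        omega
      refine (card_le_card g2).trans ?_
      rw [Nat.card_Ico]
      omega
    have e8 : μ * (aa κ x (z + X) - aa κ x z) ≤ X * (2 * β) +
        ∑ i ∈ range X, oo μ R κ x (z + i) + (X + μ) + μ := by
      rw [Nat.mul_sub]
      omega
    have e9 : μ ^ 2 * (aa κ x (z + X) - aa κ x z) ≤ X * (5 * (β * R)) + 2 * μ ^ 2 := by
      calc μ ^ 2 * (aa κ x (z + X) - aa κ x z)
          = μ * (μ * (aa κ x (z + X) - aa κ x z)) := by ring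
        _ ≤ μ * (X * (2 * β) + ∑ i ∈ range X, oo μ R κ x (z + i) + (X + μ) + μ) :=
            Nat.mul_le_mul_left _ e8
        _ = X * (2 * (β * μ)) + μ * ∑ i ∈ range X, oo μ R κ x (z + i) + X * μ + 2 * μ ^ 2 := by
            ring
        _ ≤ X * (2 * (β * μ)) + X * (4 * (β * R) + β * R / 12 + μ) + X * μ + 2 * μ ^ 2 := by
            omega
        _ = X * (2 * (β * μ) + 4 * (β * R) + β * R / 12 + 2 * μ) + 2 * μ ^ 2 := by ring
        _ ≤ X * (5 * (β * R)) + 2 * μ ^ 2 := by
            have h1 : 1 * μ ≤ β * μ := Nat.mul_le_mul_right _ hβ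
            have h2 : β * (100 * μ) ≤ β * R := Nat.mul_le_mul_left _ hR
            have h3 : β * (100 * μ) = 100 * (β * μ) := by ring
            have h4 : 2 * (β * μ) + 4 * (β * R) + β * R / 12 + 2 * μ ≤ 5 * (β * R) := by omega
            exact Nat.add_le_add_right (Nat.mul_le_mul_left _ h4) _
    have hμ2 : 0 < μ ^ 2 := pow_pos (by omega) 2
    refine le_of_mul_le_mul_left ?_ hμ2
    rw [Nat.add_sub_cancel_left]
    calc μ ^ 2 * (l * (aa κ x (z + X) - aa κ x z))
        = l * (μ ^ 2 * (aa κ x (z + X) - aa κ x z)) := by ring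
      _ ≤ l * (X * (5 * (β * R)) + 2 * μ ^ 2) := Nat.mul_le_mul_left _ e9
      _ = 5 * X * (l * (β * R)) + 2 * l * μ ^ 2 := by ring
      _ ≤ 5 * X * (8 * μ ^ 2) + 2 * l * μ ^ 2 :=
          Nat.add_le_add_right (Nat.mul_le_mul_left _ hl) _
      _ = μ ^ 2 * (40 * X + 2 * l) := by ring

end Pool.Agent.Helper55.EW
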